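import Pool.Agent.Helper29.WV.ThmA

/-! Block [P] of MP_722e70_co: a `K_{q+1}`-free graph with `G → (T, K_q)`, for a tree `T` (growth). -/

set_option autoImplicit false

namespace WV

open SimpleGraph

/-- every vertex `v` of `G` is joined to all vertices of a private copy of `H` -/
def grow {V P : Type} (G : SimpleGraph V) (H : SimpleGraph P) : SimpleGraph (V ⊕ V × P) where
  Adj x y := match x, y with
    | Sum.inl u, Sum.inl v => G.Adj u v
    | Sum.inl u, Sum.inr (v, _) => u = v
    | Sum.inr (v, _), Sum.inl u => u = v
    | Sum.inr (v, p), Sum.inr (v', p') => v = v' ∧ H.Adj p p'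
  symm := ⟨by
    rintro (u | ⟨u, p⟩) (v | ⟨v, p'⟩) h
    · exact SimpleGraph.Adj.symm h
    · exact h
    · exact h
    · exact ⟨h.1.symm, h.2.symm⟩⟩
  loopless := ⟨by
    rintro (u | ⟨u, p⟩) h
    · exact h.ne rfl
    · exact h.2.ne rfl⟩

lemma grow_free {V P : Type} {G : SimpleGraph V} {H : SimpleGraph P} {q : ℕ}
    (hG : ¬ (⊤ : SimpleGraph (Fin (q + 2))) ⊑ G) (hH : ¬ (⊤ : SimpleGraph (Fin (q + 1))) ⊑ H) :
    ¬ (⊤ : SimpleGraph (Fin (q + 2))) ⊑ grow G H := by
  classical
  rintro ⟨f⟩
  have hadj : ∀ i j : Fin (q + 2), i ≠ j → (grow G H).Adj (f i) (f j) := fun i j hij =>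
    f.toHom.map_adj (by rw [top_adj]; exact hij)
  by_cases h : ∃ i v p, f i = Sum.inr (v, p)
  · obtain ⟨i0, v, p, hi0⟩ := h
    have hj : ∀ j, f j = Sum.inl v ∨ ∃ p', f j = Sum.inr (v, p') := by
      intro j
      by_cases hij : i0 = j
      · right
        exact ⟨p, by rw [← hij, hi0]⟩
      · have h1 := hadj i0 j hij
        rw [hi0] at h1
        rcases hfj : f j with u | ⟨u, p'⟩
        · rw [hfj] at h1
          left
          have h2 : u = v := h1
          rw [h2]
        · rw [hfj] at h1
          right
          have h2 : v = u := h1.1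
          exact ⟨p', by rw [h2]⟩
    set S : Finset (Fin (q + 2)) := Finset.univ.filter fun j => f j ≠ Sum.inl v with hS
    have hcard : q + 1 ≤ S.card := by
      have h1 : (Finset.univ.filter fun j => f j = Sum.inl v).card ≤ 1 := by
        rw [Finset.card_le_one]
        intro a ha b hb
        rw [Finset.mem_filter] at ha hb
        exact f.injective (ha.2.trans hb.2.symm)
      have h2 : (Finset.univ.filter fun j => f j = Sum.inl v).card +
          (Finset.univ.filter fun j => ¬ f j = Sum.inl v).card = (Finset.univ : Finset (Fin (q + 2))).card :=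
        Finset.card_filter_add_card_filter_not _
      rw [Finset.card_univ, Fintype.card_fin] at h2
      have h3 : S.card = (Finset.univ.filter fun j => ¬ f j = Sum.inl v).card := rfl
      omega
    have hmem : ∀ i : Fin (q + 1), ∃ p', f (S.orderEmbOfCardLe hcard i) = Sum.inr (v, p') := by
      intro i
      have h1 := S.orderEmbOfCardLe_mem hcard i
      have h2 : ∀ j ∈ S, f j ≠ Sum.inl v := fun j hj' => (Finset.mem_filter.mp hj').2
      exact (hj _).resolve_left (h2 _ h1)
    choose g hg using hmem
    apply hH
    refine ⟨⟨⟨g, ?_⟩, ?_⟩⟩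
    · intro i j hij
      rw [top_adj] at hij
      have h1 := hadj _ _ (fun e => hij ((S.orderEmbOfCardLe hcard).injective e))
      rw [hg, hg] at h1
      exact h1.2
    · intro i j hij
      have h1 : g i = g j := hij
      apply (S.orderEmbOfCardLe hcard).injective
      apply f.injective
      show f _ = f _
      rw [hg, hg, h1]
  · push Not at h
    have h1 : ∀ i, ∃ u, f i = Sum.inl u := by
      intro i
      rcases hi : f i with u | ⟨u, p⟩
      · exact ⟨u, rfl⟩
      · exact absurd hi (h i u p)
    choose g hg using h1
    apply hG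
    refine ⟨⟨⟨g, ?_⟩, ?_⟩⟩
    · intro i j hij
      rw [top_adj] at hij
      have h2 := hadj i j hij
      rw [hg, hg] at h2
      exact h2
    · intro i j hij
      have h2 : g i = g j := hij
      apply f.injective
      show f _ = f _
      rw [hg, hg, h2]

lemma contained_map {A V W : Type} {T : SimpleGraph A} {G : SimpleGraph V} {G' : SimpleGraph W}
    (h : T ⊑ G) (e : V → W) (he : Function.Injective e) (hG : ∀ x y, G.Adj x y → G'.Adj (e x) (e y)) :
    T ⊑ G' := by
  obtain ⟨f⟩ := h
  refine ⟨⟨⟨fun a => e (f a), ?_⟩, ?_⟩⟩
  · intro a b hab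
    exact hG _ _ (f.toHom.map_adj hab)
  · intro a b hab
    exact f.injective (he hab)

/-- the part `S` of the rooted tree `R` is contained in `Rd` -/
def HasS {A V : Type} (R : RT A) (S : Finset A) (Rd : SimpleGraph V) : Prop :=
  ∃ f : A → V, Set.InjOn f S ∧ ∀ u ∈ S, u ≠ R.root → Rd.Adj (f u) (f (R.par u))

lemma exists_grow {A P : Type} [Fintype P] {T : SimpleGraph A} (R : RT A) {H : SimpleGraph P} {q : ℕ}
    (hH : ¬ (⊤ : SimpleGraph (Fin (q + 1))) ⊑ H) (hA : Arrows H T (⊤ : SimpleGraph (Fin q))) :
    ∀ (n : ℕ) (S : Finset A), S.card = n + 1 → R.root ∈ S → (∀ u ∈ S, R.par u ∈ S) →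
      ∃ (V : Type) (_ : Fintype V) (G : SimpleGraph V), ¬ (⊤ : SimpleGraph (Fin (q + 2))) ⊑ G ∧
        ∀ Rd ≤ G, T ⊑ Rd ∨ (⊤ : SimpleGraph (Fin (q + 1))) ⊑ G \ Rd ∨ HasS R S Rd := by
  classical
  intro n
  induction n with
  | zero =>
    intro S hS hr _
    obtain ⟨a, ha⟩ := Finset.card_eq_one.mp hS
    have hra : R.root = a := by
      rw [ha, Finset.mem_singleton] at hr
      exact hr
    refine ⟨Unit, inferInstance, ⊥, ?_, ?_⟩
    · rintro ⟨f⟩
      have h1 : (⊥ : SimpleGraph Unit).Adj (f 0) (f 1) := f.toHom.map_adj (by
        rw [top_adj]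
        intro h
        have := congrArg Fin.val h
        simp at this)
      exact h1
    · intro Rd _
      right
      right
      refine ⟨fun _ => (), ?_, ?_⟩
      · intro x hx y hy _
        rw [ha] at hx hy
        rw [Finset.mem_coe, Finset.mem_singleton] at hx hy
        rw [hx, hy]
      · intro u hu hne
        rw [ha, Finset.mem_singleton, ← hra] at hu
        exact absurd hu hne
  | succ n ih =>
    intro S hS hr hcl
    obtain ⟨u, hu, hmax⟩ := S.exists_max_image R.dep ⟨R.root, hr⟩
    have hur : u ≠ R.root := by
      intro hur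
      have h1 : 1 < S.card := by omega
      obtain ⟨w, hw, hwr⟩ := Finset.exists_mem_ne h1 R.root
      rcases R.dep_anc (R.root_anc w) with h | h
      · exact hwr h.symm
      · have := hmax w hw
        rw [hur] at this
        omega
    obtain ⟨V, hV, G, hG, hGR⟩ := ih (S.erase u) (by rw [Finset.card_erase_of_mem hu]; omega)
      (Finset.mem_erase.mpr ⟨hur.symm, hr⟩) (by
        intro w hw
        obtain ⟨hw1, hw2⟩ := Finset.mem_erase.mp hw
        refine Finset.mem_erase.mpr ⟨?_, hcl w hw2⟩
        intro hp
        by_cases hwr : w = R.root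
        · rw [hwr, R.par_root] at hp
          exact hur hp.symm
        · have h1 := R.dep_par w hwr
          have h2 := hmax w hw2
          rw [hp] at h1
          omega)
    refine ⟨V ⊕ V × P, inferInstance, grow G H, grow_free hG hH, ?_⟩
    intro Rd hRd
    have hcom : Rd.comap Sum.inl ≤ G := by
      intro x y hxy
      exact hRd hxy
    rcases hGR _ hcom with h | h | ⟨f, hf1, hf2⟩
    · left
      exact contained_map h Sum.inl Sum.inl_injective fun x y hxy => hxy
    · right
      left
      refine contained_map h Sum.inl Sum.inl_injective fun x y hxy => ?_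
      rw [sdiff_adj] at hxy ⊢
      exact ⟨hxy.1, hxy.2⟩
    · by_cases hp : ∃ p, Rd.Adj (Sum.inl (f (R.par u))) (Sum.inr (f (R.par u), p))
      · obtain ⟨p, hp⟩ := hp
        right
        right
        refine ⟨Function.update (fun a => Sum.inl (f a)) u (Sum.inr (f (R.par u), p)), ?_, ?_⟩
        · intro x hx y hy hxy
          by_cases hxu : x = u
          · by_cases hyu : y = u
            · rw [hxu, hyu]
            · rw [hxu, Function.update_self, Function.update_of_ne hyu] at hxy
              exact absurd hxy (by simp)
          · by_cases hyu : y = u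
            · rw [hyu, Function.update_self, Function.update_of_ne hxu] at hxy
              exact absurd hxy (by simp)
            · rw [Function.update_of_ne hyu, Function.update_of_ne hxu] at hxy
              exact hf1 (Finset.mem_coe.mpr (Finset.mem_erase.mpr ⟨hxu, hx⟩))
                (Finset.mem_coe.mpr (Finset.mem_erase.mpr ⟨hyu, hy⟩)) (Sum.inl_injective hxy)
        · intro w hw hwr
          by_cases hwu : w = u
          · rw [hwu, Function.update_self, Function.update_of_ne (R.par_ne hur)]
            exact hp.symm
          · have hpu : R.par w ≠ u := by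
              intro hp'
              have h1 := R.dep_par w hwr
              have h2 := hmax w hw
              rw [hp'] at h1
              omega
            rw [Function.update_of_ne hwu, Function.update_of_ne hpu]
            exact hf2 w (Finset.mem_erase.mpr ⟨hwu, hw⟩) hwr
      · push Not at hp
        set v := f (R.par u) with hv
        have hcom' : Rd.comap (fun p : P => (Sum.inr (v, p) : V ⊕ V × P)) ≤ H := by
          intro x y hxy
          exact (hRd hxy).2
        have hinj : Function.Injective fun p : P => (Sum.inr (v, p) : V ⊕ V × P) := by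
          intro x y hxy
          have h1 := Sum.inr_injective hxy
          exact (Prod.mk.inj h1).2
        rcases hA _ hcom' with h | hg0
        · left
          exact contained_map h _ hinj fun x y hxy => hxy
        · right
          left
          obtain ⟨g⟩ := hg0
          have hg : ∀ i j : Fin q, i ≠ j → (grow G H \ Rd).Adj (Sum.inr (v, g i)) (Sum.inr (v, g j)) := by
            intro i j hij
            have h1 := g.toHom.map_adj (show (⊤ : SimpleGraph (Fin q)).Adj i j by rw [top_adj]; exact hij)
            rw [sdiff_adj] at h1 ⊢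
            exact ⟨⟨rfl, h1.1⟩, h1.2⟩
          have hv0 : ∀ i : Fin q, (grow G H \ Rd).Adj (Sum.inl v) (Sum.inr (v, g i)) := by
            intro i
            rw [sdiff_adj]
            exact ⟨rfl, hp (g i)⟩
          refine ⟨⟨⟨Fin.cons (Sum.inl v) fun i => Sum.inr (v, g i), ?_⟩, ?_⟩⟩
          · intro i j hij
            rw [top_adj] at hij
            refine Fin.cases ?_ (fun i => ?_) i hij
            · refine Fin.cases (fun h => absurd rfl h) (fun j _ => ?_) j
              rw [Fin.cons_zero, Fin.cons_succ]
              exact hv0 j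
            · refine Fin.cases (fun _ => ?_) (fun j h => ?_) j
              · rw [Fin.cons_zero, Fin.cons_succ]
                exact (hv0 i).symm
              · rw [Fin.cons_succ, Fin.cons_succ]
                exact hg i j fun e => h (by rw [e])
          · intro i j hij
            have hij' : (Fin.cons (Sum.inl v) (fun i => Sum.inr (v, g i)) : Fin (q + 1) → V ⊕ V × P) i =
              (Fin.cons (Sum.inl v) (fun i => Sum.inr (v, g i)) : Fin (q + 1) → V ⊕ V × P) j := hij
            revert hij'
            refine Fin.cases ?_ (fun i => ?_) i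
            · refine Fin.cases (fun _ => rfl) (fun j h => ?_) j
              rw [Fin.cons_zero, Fin.cons_succ] at h
              exact absurd h (by simp)
            · refine Fin.cases (fun h => ?_) (fun j h => ?_) j
              · rw [Fin.cons_zero, Fin.cons_succ] at h
                exact absurd h (by simp)
              · rw [Fin.cons_succ, Fin.cons_succ] at h
                have h1 : g i = g j := (Prod.mk.inj (Sum.inr_injective h)).2
                rw [g.injective h1]

/-- Block [P]. -/
theorem exists_P {A : Type} [Fintype A] {T : SimpleGraph A} (hT : T.IsTree) (q : ℕ) (hq : 1 ≤ q) :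
    ∃ (P : Type) (_ : Fintype P) (G : SimpleGraph P), ¬ (⊤ : SimpleGraph (Fin (q + 1))) ⊑ G ∧
      Arrows G T (⊤ : SimpleGraph (Fin q)) := by
  classical
  induction q, hq using Nat.le_induction with
  | base =>
    refine ⟨Unit, inferInstance, ⊥, ?_, ?_⟩
    · rintro ⟨f⟩
      have h1 : (⊥ : SimpleGraph Unit).Adj (f 0) (f 1) := f.toHom.map_adj (by
        rw [top_adj]
        intro h
        have := congrArg Fin.val h
        simp at this)
      exact h1
    · intro R _
      right
      refine ⟨⟨⟨fun _ => (), ?_⟩, ?_⟩⟩
      · intro i j hij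
        rw [top_adj] at hij
        exact absurd (Subsingleton.elim i j) hij
      · intro i j _
        exact Subsingleton.elim i j
  | succ q hq ih =>
    obtain ⟨P, hP, H, hH, hA⟩ := ih
    obtain ⟨a⟩ : Nonempty A := hT.1.nonempty
    obtain ⟨R, hRf, hRG⟩ := exists_RT hT a
    obtain ⟨V, hV, G, hG, hGR⟩ := exists_grow R hH hA (Fintype.card A - 1) Finset.univ
      (by
        have : 0 < Fintype.card A := Fintype.card_pos_iff.mpr ⟨a⟩
        rw [Finset.card_univ]
        omega) (Finset.mem_univ _) (fun u _ => Finset.mem_univ _)
    refine ⟨V, hV, G, hG, ?_⟩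
    intro Rd hRd
    rcases hGR Rd hRd with h | h | ⟨f, hf1, hf2⟩
    · exact Or.inl h
    · exact Or.inr h
    · left
      refine ⟨⟨⟨f, ?_⟩, ?_⟩⟩
      · intro x y hxy
        rw [← hRG] at hxy
        rcases hxy with ⟨h1, h2⟩ | ⟨h1, h2⟩
        · rw [← h2]
          exact hf2 x (Finset.mem_univ _) h1
        · rw [← h2]
          exact (hf2 y (Finset.mem_univ _) h1).symm
      · intro x y hxy
        exact hf1 (Finset.mem_coe.mpr (Finset.mem_univ _)) (Finset.mem_coe.mpr (Finset.mem_univ _)) hxy

end WV
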